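import Pool.Agent.Helper9.PP.Stm
import Pool.Agent.Helper9.FJ.Obst

/-!
Project PP, package OBS: obstructions, multigraded form.
-/

set_option autoImplicit false
set_option linter.unusedSectionVars false

namespace Pool.Agent.Helper85.PP

open FF Module MvPolynomial Pool.Agent.Helper9.FJ Pool.Agent.Helper9.PP

variable {K : Type} [Field K] [Algebra ℂ K] {l : ℕ} {r : Fin l → ℕ} {P : Place ℂ K}

/-- all coefficients have order at least `c` -/
def CG {σ : Type} (P : Place ℂ K) (c : ℤ) (s : MvPolynomial σ K) : Prop := ∀ α, Ge P c (s.coeff α)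

variable {σ : Type}

theorem CG.mono {c c' : ℤ} {s : MvPolynomial σ K} (h : CG P c s) (hc : c' ≤ c) :
    CG P c' s := fun α => (h α).mono hc

theorem CG.add {c : ℤ} {s s' : MvPolynomial σ K} (h : CG P c s) (h' : CG P c s') :
    CG P c (s + s') := fun α => by
  rw [coeff_add]
  exact (h α).add (h' α)

theorem CG.neg {c : ℤ} {s : MvPolynomial σ K} (h : CG P c s) : CG P c (-s) := fun α => by
  rw [coeff_neg]
  exact (h α).neg

theorem CG.sum {ι : Type*} {c : ℤ} (S : Finset ι) {s : ι → MvPolynomial σ K}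
    (h : ∀ i ∈ S, CG P c (s i)) : CG P c (∑ i ∈ S, s i) := fun α => by
  rw [coeff_sum]
  exact Ge.sum _ fun i hi => h i hi α

theorem CG.mul {c c' : ℤ} {s s' : MvPolynomial σ K} (h : CG P c s) (h' : CG P c' s') :
    CG P (c + c') (s * s') := fun α => by
  classical
  rw [coeff_mul]
  exact Ge.sum _ fun x _ => (h _).mul (h' _)

theorem cg_C {c : ℤ} {a : K} (h : Ge P c a) : CG P c (C a : MvPolynomial σ K) := by
  classical
  intro α
  rw [coeff_C]
  split_ifs
  · exact h
  · exact ge_zero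

theorem cg_X (j : σ) : CG P 0 (X j : MvPolynomial σ K) := by
  classical
  intro α
  rw [coeff_X]
  split_ifs
  · exact ge_one
  · exact ge_zero

theorem cg_one : CG P 0 (1 : MvPolynomial σ K) := by
  rw [← C_1]
  exact cg_C ge_one

theorem CG.prod {ι : Type*} (S : Finset ι) {s : ι → MvPolynomial σ K} {n : ι → ℤ}
    (h : ∀ i ∈ S, CG P (n i) (s i)) : CG P (∑ i ∈ S, n i) (∏ i ∈ S, s i) := by
  classical
  induction S using Finset.induction_on with
  | empty => rw [Finset.prod_empty, Finset.sum_empty]; exact cg_one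
  | insert a S ha ih =>
    rw [Finset.prod_insert ha, Finset.sum_insert ha]
    exact (h a (Finset.mem_insert_self _ _)).mul (ih fun i hi => h i (Finset.mem_insert_of_mem hi))

theorem CG.pow {c : ℤ} {s : MvPolynomial σ K} (h : CG P c s) (n : ℕ) :
    CG P (n * c) (s ^ n) := by
  have := CG.prod (Finset.range n) (s := fun _ => s) (n := fun _ => c) fun _ _ => h
  rwa [Finset.prod_const, Finset.sum_const, Finset.card_range, nsmul_eq_mul] at this

/-- the exponents of degree `a j` in the group `j` -/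
abbrev Im (a : Fin l → ℕ) : Type :=
  {α : Vr r →₀ ℕ // α ∈ ((Finset.univ : Finset (Vr r)).finsuppAntidiag (∑ j, a j)).filter
    fun α => ∀ j, ∑ i, α ⟨j, i⟩ = a j}

theorem Im.sum {a : Fin l → ℕ} (α : Im (r := r) a) : ∀ j, ∑ i, α.1 ⟨j, i⟩ = a j :=
  (Finset.mem_filter.1 α.2).2

theorem mem_Im {a : Fin l → ℕ} {α : Vr r →₀ ℕ} (h : ∀ j, ∑ i, α ⟨j, i⟩ = a j) :
    α ∈ ((Finset.univ : Finset (Vr r)).finsuppAntidiag (∑ j, a j)).filter
      fun α => ∀ j, ∑ i, α ⟨j, i⟩ = a j := by
  refine Finset.mem_filter.2 ⟨Finset.mem_finsuppAntidiag.2 ⟨?_, Finset.subset_univ _⟩, h⟩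
  rw [← Finset.univ_sigma_univ, Finset.sum_sigma]
  exact Finset.sum_congr rfl fun j _ => h j

theorem Im.total {a : Fin l → ℕ} (α : Im (r := r) a) : ∑ x, α.1 x = ∑ j, a j :=
  (Finset.mem_finsuppAntidiag.1 (Finset.mem_filter.1 α.2).1).1

/-- the multihomogeneous polynomial with given coefficients -/
noncomputable def pol {a : Fin l → ℕ} : (Im (r := r) a → K) →ₗ[K] MvPolynomial (Vr r) K :=
  ∑ α : Im (r := r) a, (monomial α.1).comp (LinearMap.proj α)

theorem pol_apply {a : Fin l → ℕ} (f : Im (r := r) a → K) :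
    pol f = ∑ α : Im (r := r) a, monomial α.1 (f α) := by
  rw [pol, LinearMap.sum_apply]
  rfl

theorem coeff_pol {a : Fin l → ℕ} (f : Im (r := r) a → K) (α : Im (r := r) a) :
    coeff α.1 (pol f) = f α := by
  classical
  rw [pol_apply, coeff_sum, Finset.sum_eq_single α]
  · rw [coeff_monomial, if_pos rfl]
  · intro β _ hβ
    rw [coeff_monomial, if_neg fun h => hβ (Subtype.ext h)]
  · intro h
    exact absurd (Finset.mem_univ _) h

theorem coeff_pol_zero {a : Fin l → ℕ} (f : Im (r := r) a → K) {β : Vr r →₀ ℕ}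
    (hβ : ¬ ∀ j, ∑ i, β ⟨j, i⟩ = a j) : coeff β (pol f) = 0 := by
  classical
  rw [pol_apply, coeff_sum]
  refine Finset.sum_eq_zero fun α _ => ?_
  rw [coeff_monomial, if_neg]
  rintro rfl
  exact hβ α.sum

theorem pol_mh {a : Fin l → ℕ} (f : Im (r := r) a → K) : IsMh a (pol f) := by
  intro β hβ
  by_contra hcon
  exact hβ (coeff_pol_zero f hcon)

theorem pol_coeff {a : Fin l → ℕ} {s : MvPolynomial (Vr r) K} (hs : IsMh a s) :
    pol (fun α : Im (r := r) a => coeff α.1 s) = s := by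
  classical
  ext β
  by_cases hβ : ∀ j, ∑ i, β ⟨j, i⟩ = a j
  · exact coeff_pol _ ⟨β, mem_Im hβ⟩
  · rw [coeff_pol_zero _ hβ]
    by_contra hcon
    exact hβ (hs β (Ne.symm hcon))

theorem locM_add (E : ∀ j, Bundle K (r j)) (P : Place ℂ K) (s s' : MvPolynomial (Vr r) K) :
    locM E P (s + s') = locM E P s + locM E P s' := map_add _ _ _

theorem locM_neg (E : ∀ j, Bundle K (r j)) (P : Place ℂ K) (s : MvPolynomial (Vr r) K) :
    locM E P (-s) = -locM E P s := map_neg _ _

theorem locM_zero (E : ∀ j, Bundle K (r j)) (P : Place ℂ K) :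
    locM E P (0 : MvPolynomial (Vr r) K) = 0 := map_zero _

theorem locM_mul (E : ∀ j, Bundle K (r j)) (P : Place ℂ K) (s s' : MvPolynomial (Vr r) K) :
    locM E P (s * s') = locM E P s * locM E P s' := map_mul _ _ _

theorem locM_C (E : ∀ j, Bundle K (r j)) (P : Place ℂ K) (c : K) :
    locM E P (C c : MvPolynomial (Vr r) K) = C c := by
  rw [locM, aeval_C]
  rfl

theorem cg_lin {ι : Type} [Fintype ι] {g : ι → σ} {c : ℤ} {v : ι → K} (h : ∀ i, Ge P c (v i)) :
    CG P c (∑ i, C (v i) * X (g i) : MvPolynomial σ K) :=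
  CG.sum _ fun i _ => by
    have := (cg_C (σ := σ) (h i)).mul (cg_X (g i))
    rwa [add_zero] at this

/-- **Obstructions, multigraded.** -/
theorem obs : S_OBS := by
  intro K _ _ _ l r W hW E a N G hG e he hGe P0 s0 hs0 hs0' hno
  classical
  -- a bound for the local lattices
  have hb : ∀ P : Place ℂ K, ∃ b : ℤ, b ≤ 0 ∧ ((∀ j, (E j).B P = 1) → b = 0) ∧
      ∀ j i k, Ge P b (((E j).B P)⁻¹ i k) := by
    intro P
    by_cases hB : ∀ j, (E j).B P = 1
    · refine ⟨0, le_rfl, fun _ => rfl, fun j i k => ?_⟩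
      rw [hB j, inv_one, Matrix.one_apply]
      split_ifs
      · exact ge_one
      · exact ge_zero
    · obtain ⟨n, hn⟩ := exists_bound P
        (fun x : Σ j, (Fin (r j) × Fin (r j)) => ((E x.1).B P)⁻¹ x.2.1 x.2.2)
      exact ⟨min n 0, min_le_right _ _, fun h => absurd h hB,
        fun j i k => (hn ⟨j, i, k⟩).mono (min_le_left _ _)⟩
  choose b hb0 hb1 hb2 using hb
  have hbfin : {P | b P ≠ 0}.Finite := by
    refine (Set.finite_iUnion fun j => (E j).fin).subset fun P hP => ?_
    by_contra hcon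
    apply hP
    apply hb1
    intro j
    by_contra hj
    exact hcon (Set.mem_iUnion.2 ⟨j, hj⟩)
  obtain ⟨k, hk⟩ : ∃ k : ℕ, k = ∑ j, a j := ⟨_, rfl⟩
  have hpol : ∀ (P : Place ℂ K) (c : ℤ) (x : Im (r := r) a → K), (∀ α, Ge P c (x α)) →
      CG P (c + k * b P) (locM E P (pol x)) := by
    intro P c x hx
    obtain ⟨L, hL⟩ : ∃ L : Vr r → MvPolynomial (Vr r) K,
        L = fun y => ∑ i, C (((E y.1).B P)⁻¹ y.2 i) * X ⟨y.1, i⟩ := ⟨_, rfl⟩
    have hL0 : ∀ y, CG P (b P) (L y) := fun y => by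
      rw [hL]
      exact CG.sum _ fun i _ => by
        have := (cg_C (σ := Vr r) (hb2 P y.1 y.2 i)).mul (cg_X (P := P) (⟨y.1, i⟩ : Vr r))
        rwa [add_zero] at this
    have hloc : locM E P (pol x) = aeval L (pol x) := by rw [hL]; rfl
    rw [hloc, pol_apply, map_sum]
    clear hloc hL
    refine CG.sum _ fun α _ => ?_
    rw [aeval_monomial, Finsupp.prod_fintype _ _ fun j => pow_zero _]
    refine CG.mul (cg_C (σ := Vr r) (hx α)) ?_
    have h2 : CG P (∑ y : Vr r, α.1 y * b P) (∏ y : Vr r, L y ^ α.1 y) :=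
      CG.prod Finset.univ fun y _ => (hL0 y).pow _
    rw [← Finset.sum_mul] at h2
    have h3 : ∑ y, (α.1 y : ℤ) = k := by
      rw [hk]
      exact_mod_cast α.total
    rwa [h3] at h2
  let Λ : Place ℂ K → AddSubgroup (Im (r := r) a → K) := fun P =>
    { carrier := {x | CG P (-N P) (locM E P (pol x)) ∧ pol x ∈ G P}
      zero_mem' := by
        refine ⟨?_, ?_⟩
        · rw [map_zero, locM_zero]
          intro α
          rw [coeff_zero]
          exact ge_zero
        · rw [map_zero]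
          exact (G P).zero_mem
      add_mem' := by
        rintro x y ⟨hx1, hx2⟩ ⟨hy1, hy2⟩
        refine ⟨?_, ?_⟩
        · rw [map_add, locM_add]
          exact hx1.add hy1
        · rw [map_add]
          exact (G P).add_mem hx2 hy2
      neg_mem' := by
        rintro x ⟨hx1, hx2⟩
        refine ⟨?_, ?_⟩
        · rw [map_neg, locM_neg]
          exact hx1.neg
        · rw [map_neg]
          exact (G P).neg_mem hx2 }
  have hΛ : ∀ P x, x ∈ Λ P ↔ CG P (-N P) (locM E P (pol x)) ∧ pol x ∈ G P := fun _ _ => Iff.rfl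
  obtain ⟨q, hq0, hq⟩ := Pool.Agent.Helper90.FJ.dual hW Λ (by
    intro P c x hc hx
    rw [hΛ] at hx ⊢
    rw [map_smul, smul_eq_C_mul]
    refine ⟨?_, hG P c _ hc hx.2⟩
    rw [locM_mul, locM_C]
    have := (cg_C (σ := Vr r) (hc : Ge P 0 c)).mul hx.1
    rwa [zero_add] at this) (e - N - k • Finsupp.ofSupportFinite b hbfin) (by
    intro P x hx
    rw [hΛ]
    have h1 := hpol P _ x hx
    have h2 : (e - N - k • Finsupp.ofSupportFinite b hbfin) P + k * b P = e P - N P := by
      rw [Finsupp.sub_apply, Finsupp.sub_apply, Finsupp.smul_apply, nsmul_eq_mul]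
      exact sub_add_cancel _ _
    rw [h2] at h1
    exact ⟨h1.mono (by have := he P; omega), hGe P _ h1⟩) P0 (fun α => coeff α.1 s0) (by
    intro f hf hcon
    rw [hΛ, map_sub, pol_coeff hs0] at hcon
    refine hno (pol f) ⟨pol_mh f, fun P => ?_⟩ (fun P hP => ((hΛ P f).1 (hf P hP)).2) hcon.2
    by_cases hP : P = P0
    · subst hP
      have h3 := hcon.1.add (show CG P (-N P) (locM E P s0) from hs0')
      rw [← locM_add, sub_add_cancel] at h3
      exact h3
    · exact ((hΛ P f).1 (hf P hP)).1)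
  refine ⟨∑ α : Im (r := r) a, q α • lcoeff K α.1, ?_, fun P s hs hs1 hs2 => ?_⟩
  · obtain ⟨α, hα⟩ := Function.ne_iff.1 hq0
    refine ⟨α.1, α.sum, ?_⟩
    rw [LinearMap.sum_apply, Finset.sum_eq_single α]
    · rw [LinearMap.smul_apply, lcoeff_apply, coeff_monomial, if_pos rfl, smul_eq_mul, mul_one]
      exact hα
    · intro β _ hβ
      rw [LinearMap.smul_apply, lcoeff_apply, coeff_monomial,
        if_neg fun h => hβ (Subtype.ext h.symm), smul_zero]
    · intro h
      exact absurd (Finset.mem_univ _) h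
  · have h1 := hq P (fun α => coeff α.1 s) ((hΛ _ _).2 (by rw [pol_coeff hs]; exact ⟨hs1, hs2⟩))
    rw [LinearMap.sum_apply]
    exact h1

end Pool.Agent.Helper85.PP
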